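import Pool.Agent.Q323.PCG.Correct

/-!
# Generalized PCG recognition is NP-hard

Reduction from 3-colourability.  By the four-point condition, a forbidden pair can be forced to be
closer than `dmin`, or to be farther than `dmax`, and the relation of being closer than `dmin`
is transitive among forbidden pairs of vertices with a common neighbour.  In the instance every
vertex of the given graph has to be close to one of three colour vertices, and adjacent vertices
have to be far from each other.  Conversely a 3-colouring gives a tree: all leaves are attached to
a fixed tree with 21 vertices, at positions which depend on the colours.
-/

set_option autoImplicit false

namespace Pool.Agent.Results.MP_9390ab_lc.GenPCGNPHard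

open Pool.Agent.NPC Pool.Agent.H673R2 Pool.Agent.Q323.PCG

/-- **Generalized PCG recognition is NP-hard** under polynomial-time many-one reductions. -/
theorem result : NPHardOn IsInst GenPCGMat := hard

end Pool.Agent.Results.MP_9390ab_lc.GenPCGNPHard
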